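import Pool.Agent.helper62.VD.SpecL

set_option autoImplicit false

open scoped ContDiff Topology InnerProductSpace ComplexConjugate ENNReal
open MeasureTheory Filter Set

namespace Pool.Agent.VD

open Pool.Agent.VQ (CH)

noncomputable section

lemma ALRC_pow {R : ℝ} (hR : 16 ≤ R) : R ^ (-(1 / 4) : ℝ) ≤ 1 / 2 := by
  have h1 : R ^ (-(1 / 4) : ℝ) ≤ (16 : ℝ) ^ (-(1 / 4) : ℝ) :=
    Real.rpow_le_rpow_of_nonpos (by norm_num) hR (by norm_num)
  have h2 : (16 : ℝ) ^ (-(1 / 4) : ℝ) = 1 / 2 := by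
    have h3 : (16 : ℝ) = (2 : ℝ) ^ (4 : ℝ) := by norm_num
    rw [h3, ← Real.rpow_mul (by norm_num)]
    have h4 : (4 : ℝ) * (-(1 / 4)) = -1 := by norm_num
    rw [h4, Real.rpow_neg_one]
    norm_num
  rw [h2] at h1
  exact h1

lemma ALRC_Ham {Γ : Type} {d : ℕ} {G : V d → V d →L[ℝ] V d} {r0 R : ℝ} (hR : 16 ≤ R)
    {y : YS Γ d} (hy : y ∈ GW Γ G r0 2 R) : ‖y.2.1‖ ≤ r0 ∧ Ham G y.2 ≤ 2 := by
  refine ⟨hy.1, ?_⟩
  have h1 := hy.2
  have h2 := (abs_le.1 h1).2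
  have h3 := ALRC_pow hR
  unfold Ep at h2
  linarith

lemma ALRC_first {Γ : Type} [Group Γ] {d : ℕ} [MulAction Γ (V d)] (G : V d → V d →L[ℝ] V d)
    (Φ : ℝ → P d → P d) (r0 r R : ℝ) (n : ℕ) : ∀ y y' : YS Γ d,
    RC G Φ r0 r R (n + 1) y y' ↔ ∃ x, RC G Φ r0 r R n y x ∧ St G Φ r0 r R x y' := by
  induction n with
  | zero =>
    intro y y'
    exact Iff.rfl
  | succ n ih =>
    intro y y'
    constructor
    · rintro ⟨x, h1, h2⟩
      obtain ⟨z, h3, h4⟩ := (ih x y').1 h2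
      exact ⟨z, ⟨x, h1, h3⟩, h4⟩
    · rintro ⟨z, ⟨x, h1, h3⟩, h4⟩
      exact ⟨x, h1, (ih x y').2 ⟨z, h3, h4⟩⟩

lemma ALRC_norm {d : ℕ} {p q : P d} {a b : ℝ} (h1 : ‖p.1‖ ≤ a) (h2 : ‖p.2‖ ≤ a)
    (h : dist p q ≤ b) : ‖q.1‖ ≤ a + b ∧ ‖q.2‖ ≤ a + b := by
  rw [Prod.dist_eq] at h
  have h3 := (le_max_left _ _).trans h
  have h4 := (le_max_right _ _).trans h
  constructor
  · calc ‖q.1‖ ≤ ‖p.1‖ + ‖q.1 - p.1‖ := by
          have := norm_add_le p.1 (q.1 - p.1)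
          rwa [add_sub_cancel] at this
      _ ≤ a + b := by
          rw [← dist_eq_norm, dist_comm]
          exact add_le_add h1 h3
  · calc ‖q.2‖ ≤ ‖p.2‖ + ‖q.2 - p.2‖ := by
          have := norm_add_le p.2 (q.2 - p.2)
          rwa [add_sub_cancel] at this
      _ ≤ a + b := by
          rw [← dist_eq_norm, dist_comm]
          exact add_le_add h2 h4

theorem ALRC_proof (h1 : ALFX_stmt) (h2 : ASGF_stmt) (h3 : ACNF_stmt) : ALRC_stmt := by
  intro d Γ _ _ K k B r0 hK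
  refine ⟨fun G Φ R r n y y' => ALRC_first G Φ r0 r R n y y', ?_⟩
  obtain ⟨C1, hC1, hcn⟩ := h3 d Γ K k B (r0 + 1) 1 hK
  set ρ : ℝ := C1 + 2 + |r0| with hρ
  obtain ⟨_, _, C2, hC2, hsg⟩ := h2 d Γ K hK ρ 0
  refine ⟨C2 * (C1 + 1), ?_, ?_⟩
  · nlinarith
  intro G Φ R r n y y' hOK hR hr hCr hRC
  have hC : 1 ≤ C2 * (C1 + 1) := by nlinarith
  obtain ⟨_, hl1, hlm, _, hHl, hΦl, hHΦ, _⟩ := h1 d Γ K k B G Φ hOK
  -- the step
  have hstep : ∀ (x y' : YS Γ d) (z : P d) (D : ℝ), r ≤ 1 → St G Φ r0 r R x y' → ‖z.1‖ ≤ r0 + 1 →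
      Ham G z ≤ 2 → dist z x.2 ≤ D →
      dist (lft (y'.1⁻¹ * x.1) (Φ 1 z)) y'.2 ≤ C2 * (C1 * D + r) := by
    intro x y' z D hr1 hst hz1 hz2 hzD
    obtain ⟨hx, hy', hd⟩ := hst
    obtain ⟨hx1, hx2⟩ := ALRC_Ham hR hx
    obtain ⟨hy1, hy2⟩ := ALRC_Ham hR hy'
    have a1 := hcn G Φ hOK z 1 hz1 hz2 (by norm_num)
    have a2 := hcn G Φ hOK x.2 1 (by linarith) hx2 (by norm_num)
    have a3 : dist (Φ 1 z) (Φ 1 x.2) ≤ C1 * D :=
      (a1.2.2.2.1 x.2 (by linarith) hx2).trans (mul_le_mul_of_nonneg_left hzD (by linarith))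
    have a4 : dist (Φ 1 z) (rel x y') ≤ C1 * D + r :=
      (dist_triangle _ _ _).trans (add_le_add a3 hd.le)
    obtain ⟨b1, b2⟩ := ALRC_norm a2.1 a2.2.1 hd.le
    set κ : Γ := y'.1⁻¹ * x.1 with hκ
    have hinv : lft κ (rel x y') = y'.2 := by
      unfold rel
      rw [← hlm, hκ]
      have : y'.1⁻¹ * x.1 * (x.1⁻¹ * y'.1) = 1 := by group
      rw [this, hl1]
    have habs : 0 ≤ |r0| := abs_nonneg r0
    have hκS : κ ∈ SG Γ d ρ := by
      refine ⟨(rel x y').1, ?_, ?_⟩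
      · rw [hρ]; linarith
      · have e1 : κ • (rel x y').1 = (lft κ (rel x y')).1 := rfl
        rw [e1, hinv, hρ]
        have := le_abs_self r0
        linarith
    have c1 := (hsg κ hκS (0 : V d) (by rw [norm_zero, hρ]; linarith)).2.2.2 (Φ 1 z) (rel x y')
      (by rw [hρ]; linarith [a1.1]) (by rw [hρ]; linarith) (by rw [hρ]; linarith [a1.2.1])
      (by rw [hρ]; linarith)
    rw [hinv] at c1
    exact c1.2.1.trans (mul_le_mul_of_nonneg_left a4 (by linarith))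
  -- the induction
  induction n generalizing y' with
  | zero =>
    have hr1 : r ≤ 1 := by
      calc r = 1 * r := (one_mul r).symm
        _ ≤ (C2 * (C1 + 1)) ^ (0 + 1) * r := by
            rw [zero_add, pow_one]
            exact mul_le_mul_of_nonneg_right hC hr
        _ ≤ 1 := hCr
    have hst : St G Φ r0 r R y y' := hRC
    obtain ⟨hy1, hy2⟩ := ALRC_Ham hR hst.1
    have h := hstep y y' y.2 0 hr1 hst (by linarith) hy2 (by rw [dist_self])
    have e1 : ((0 : ℕ) : ℝ) + 1 = 1 := by norm_num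
    rw [e1]
    refine h.trans ?_
    rw [mul_zero, zero_add, zero_add, pow_one]
    refine mul_le_mul_of_nonneg_right ?_ hr
    nlinarith
  | succ n ih =>
    obtain ⟨x, hx, hst⟩ := (ALRC_first G Φ r0 r R n y y').1 hRC
    set C := C2 * (C1 + 1) with hCdef
    have hCn : 1 ≤ C ^ (n + 1) := one_le_pow₀ hC
    have hpow : C ^ (n + 1) * r ≤ C ^ (n + 1 + 1) * r := by
      refine mul_le_mul_of_nonneg_right ?_ hr
      exact pow_le_pow_right₀ hC (by omega)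
    have hCr' : C ^ (n + 1) * r ≤ 1 := hpow.trans hCr
    have hr1 : r ≤ 1 := by
      calc r = 1 * r := (one_mul r).symm
        _ ≤ C ^ (n + 1) * r := mul_le_mul_of_nonneg_right hCn hr
        _ ≤ 1 := hCr'
    have hD := ih x hCr' hx
    set z : P d := lft (x.1⁻¹ * y.1) (Φ ((n : ℝ) + 1) y.2) with hz
    obtain ⟨hx1, hx2⟩ := ALRC_Ham hR hst.1
    have hy : y ∈ GW Γ G r0 2 R := by
      cases n with
      | zero => exact (show St G Φ r0 r R y x from hx).1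
      | succ m =>
        obtain ⟨w, hw, _⟩ := hx
        exact hw.1
    obtain ⟨hy1, hy2⟩ := ALRC_Ham hR hy
    have hz2 : Ham G z ≤ 2 := by
      rw [hz, hHl, hHΦ]
      exact hy2
    have hz1 : ‖z.1‖ ≤ r0 + 1 := by
      have h5 : dist x.2 z ≤ 1 := by
        rw [dist_comm]
        exact hD.trans hCr'
      have h6 : dist x.2.1 z.1 ≤ 1 := by
        rw [Prod.dist_eq] at h5
        exact (le_max_left _ _).trans h5
      calc ‖z.1‖ ≤ ‖x.2.1‖ + ‖z.1 - x.2.1‖ := by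
            have := norm_add_le x.2.1 (z.1 - x.2.1)
            rwa [add_sub_cancel] at this
        _ ≤ r0 + 1 := by
            rw [← dist_eq_norm, dist_comm]
            exact add_le_add hx1 h6
    have h := hstep x y' z (C ^ (n + 1) * r) hr1 hst hz1 hz2 hD
    have heq : lft (y'.1⁻¹ * x.1) (Φ 1 z) = lft (y'.1⁻¹ * y.1) (Φ (((n + 1 : ℕ) : ℝ) + 1) y.2) := by
      rw [hz, hΦl, ← hlm, ← hOK.flow.add]
      have e1 : y'.1⁻¹ * x.1 * (x.1⁻¹ * y.1) = y'.1⁻¹ * y.1 := by group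
      have e2 : (1 : ℝ) + ((n : ℝ) + 1) = ((n + 1 : ℕ) : ℝ) + 1 := by push_cast; ring
      rw [e1, e2]
    rw [heq] at h
    refine h.trans ?_
    have hC2 : 0 ≤ C2 := by linarith
    have h7 : C1 * (C ^ (n + 1) * r) + r ≤ (C1 + 1) * (C ^ (n + 1) * r) := by
      have : r ≤ C ^ (n + 1) * r := by
        calc r = 1 * r := (one_mul r).symm
          _ ≤ C ^ (n + 1) * r := mul_le_mul_of_nonneg_right hCn hr
      linarith
    calc C2 * (C1 * (C ^ (n + 1) * r) + r) ≤ C2 * ((C1 + 1) * (C ^ (n + 1) * r)) :=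
          mul_le_mul_of_nonneg_left h7 hC2
      _ = C ^ (n + 1 + 1) * r := by rw [pow_succ C (n + 1), hCdef]; ring

end

end Pool.Agent.VD
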