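import Pool.Agent.helper94.VD.SpecDPR

set_option autoImplicit false

open scoped ContDiff Topology InnerProductSpace ENNReal
open MeasureTheory Filter Set

namespace Pool.Agent.VD

noncomputable section

/-- the scaling identity for the derivative of the flow -/
lemma DBX_scl {d : ℕ} {Γ : Type} [Group Γ] [MulAction Γ (V d)] (G : V d → V d →L[ℝ] V d)
    (Φ : ℝ → P d → P d) (γ : Γ) (t : ℝ) (y y' : P d) (hdif : ContDiff ℝ ∞ (MM Φ γ : ℝ × P d → P d))
    (hmx : fderiv ℝ (MM Φ γ) (t, y) (1, 0) = XH G (MM Φ γ (t, y))) (hS : Scl Φ)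
    (hy : MM Φ γ (t, y) = y') : (fderiv ℝ (MM Φ γ) (t, y) (0, (0, y.2))).1 = t • vel G y' := by
  have hd : HasFDerivAt (MM Φ γ) (fderiv ℝ (MM Φ γ) (t, y)) (t, y) :=
    ((hdif.differentiable (by simp)) (t, y)).hasFDerivAt
  have hc1 : HasDerivAt (fun l : ℝ => ((t, (y.1, l • y.2)) : ℝ × P d)) (0, (0, y.2)) 1 := by
    have h1 : HasDerivAt (fun l : ℝ => l • y.2) y.2 1 := by
      simpa using (hasDerivAt_id (1 : ℝ)).smul_const y.2
    exact (hasDerivAt_const (1 : ℝ) t).prodMk ((hasDerivAt_const (1 : ℝ) y.1).prodMk h1)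
  have hc2 : HasDerivAt (fun l : ℝ => ((l * t, y) : ℝ × P d)) (t, 0) 1 := by
    have h1 : HasDerivAt (fun l : ℝ => l * t) t 1 := by
      simpa using (hasDerivAt_id (1 : ℝ)).mul_const t
    exact h1.prodMk (hasDerivAt_const (1 : ℝ) y)
  have e1 : ((t, (y.1, (1 : ℝ) • y.2)) : ℝ × P d) = (t, y) := by rw [one_smul]
  have e2 : (((1 : ℝ) * t, y) : ℝ × P d) = (t, y) := by rw [one_mul]
  have hd1 : HasDerivAt (fun l : ℝ => MM Φ γ (t, (y.1, l • y.2)))
      (fderiv ℝ (MM Φ γ) (t, y) (0, (0, y.2))) 1 := by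
    have h1 : HasFDerivAt (MM Φ γ) (fderiv ℝ (MM Φ γ) (t, y)) (t, (y.1, (1 : ℝ) • y.2)) := by
      rw [e1]; exact hd
    exact h1.comp_hasDerivAt (1 : ℝ) hc1
  have hd2 : HasDerivAt (fun l : ℝ => MM Φ γ (l * t, y)) (fderiv ℝ (MM Φ γ) (t, y) (t, 0)) 1 := by
    have h1 : HasFDerivAt (MM Φ γ) (fderiv ℝ (MM Φ γ) (t, y)) ((1 : ℝ) * t, y) := by
      rw [e2]; exact hd
    exact h1.comp_hasDerivAt (1 : ℝ) hc2
  have hf1 : HasDerivAt (fun l : ℝ => (MM Φ γ (t, (y.1, l • y.2))).1)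
      (fderiv ℝ (MM Φ γ) (t, y) (0, (0, y.2))).1 1 :=
    ((ContinuousLinearMap.fst ℝ (V d) (V d)).hasFDerivAt).comp_hasDerivAt (1 : ℝ) hd1
  have hf2 : HasDerivAt (fun l : ℝ => (MM Φ γ (l * t, y)).1)
      (fderiv ℝ (MM Φ γ) (t, y) (t, 0)).1 1 :=
    ((ContinuousLinearMap.fst ℝ (V d) (V d)).hasFDerivAt).comp_hasDerivAt (1 : ℝ) hd2
  have heq : (fun l : ℝ => (MM Φ γ (t, (y.1, l • y.2))).1) =ᶠ[𝓝 1]
      (fun l : ℝ => (MM Φ γ (l * t, y)).1) := by
    filter_upwards [Ioi_mem_nhds (zero_lt_one : (0 : ℝ) < 1)] with l hl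
    have h1 := hS t l y hl
    change γ • (Φ t (y.1, l • y.2)).1 = γ • (Φ (l * t) y).1
    rw [h1]
  have h3 := (hf1.congr_of_eventuallyEq heq.symm).unique hf2
  rw [h3]
  have h4 : ((t, 0) : ℝ × P d) = t • (1, 0) := by
    rw [Prod.smul_mk, smul_eq_mul, mul_one, smul_zero]
  rw [h4, map_smul, hmx, hy]
  rfl

theorem DBX_proof (hSFD : SFD_stmt) (hSFI : SFI_stmt) (hDDK : DDK_stmt) (hDBA : DBA_stmt) :
    DBX_stmt := by
  intro m C C' r hC hC' hr
  obtain ⟨M1, hM1, hsfi⟩ := hSFI m C hC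
  set M2 : ℝ := C * M1 + C * C + M1 + C with hM2
  have hM2' : 1 ≤ M2 := by nlinarith
  obtain ⟨M3, hM3, hdba⟩ := hDBA m M2 hM2'
  refine ⟨2 * M3, by linarith, ?_⟩
  intro Γ _ _ K G Φ D hG hScl y hy y' hy' e e' κ he he' hκ γ t ht hyy' T hT
  obtain ⟨d1, d2, d3, d4, d5, d6, d7⟩ := hSFD m G y e hG.met hy.2 he
  obtain ⟨d1', d2', d3', d4', d5', d6', d7'⟩ := hSFD m G y' e' hG.met hy'.2 he'
  have hen : ‖e‖ ≤ M1 := (hsfi Γ K G Φ D hG y hy e he).2.2.2.2.1
  have hen' : ‖e'‖ ≤ M1 := (hsfi Γ K G Φ D hG y' hy' e' he').2.2.2.2.1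
  obtain ⟨b1, b2, b3, _, _⟩ := hG.b0 y hy
  obtain ⟨b1', b2', b3', _, _⟩ := hG.b0 y' hy'
  obtain ⟨k1, _, k3⟩ := hDDK m C C' r Γ K G Φ D hr hG y hy e κ he hκ
  have hvel : ‖vel G y‖ ≤ C * C := by
    unfold vel
    exact ((IG G y.1).le_opNorm _).trans (mul_le_mul b3 b1 (norm_nonneg _) (by linarith))
  have hvel' : ‖vel G y'‖ ≤ C * C := by
    unfold vel
    exact ((IG G y'.1).le_opNorm _).trans (mul_le_mul b3' b1' (norm_nonneg _) (by linarith))
  have hsymm : ∀ (x u v : V (m + 1)), ⟪G x u, v⟫_ℝ = ⟪u, G x v⟫_ℝ := hG.met.symm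
  -- the operators
  let A : W m × ℝ →L[ℝ] V (m + 1) :=
    ((G y.1).comp e).comp (ContinuousLinearMap.fst ℝ (W m) ℝ) +
      (ContinuousLinearMap.snd ℝ (W m) ℝ).smulRight y.2
  let A' : W m × ℝ →L[ℝ] V (m + 1) :=
    e'.comp (ContinuousLinearMap.fst ℝ (W m) ℝ) +
      (ContinuousLinearMap.snd ℝ (W m) ℝ).smulRight (vel G y')
  let B : V (m + 1) →L[ℝ] W m × ℝ := (ContinuousLinearMap.adjoint e).prod (innerSL ℝ (vel G y))
  let B' : V (m + 1) →L[ℝ] W m × ℝ :=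
    ((ContinuousLinearMap.adjoint e').comp (G y'.1)).prod (innerSL ℝ y'.2)
  have hAa : ∀ (w : W m) (s : ℝ), A (w, s) = G y.1 (e w) + s • y.2 := fun w s => rfl
  have hAa' : ∀ (w : W m) (s : ℝ), A' (w, s) = e' w + s • vel G y' := fun w s => rfl
  have hBa : ∀ η, B η = (ContinuousLinearMap.adjoint e η, ⟪vel G y, η⟫_ℝ) := fun η => rfl
  have hBa' : ∀ u, B' u = (ContinuousLinearMap.adjoint e' (G y'.1 u), ⟪y'.2, u⟫_ℝ) := fun u => rfl
  have h1 : ∀ η, A (B η) = η := by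
    intro η
    rw [hBa, hAa, real_inner_comm]
    exact (d2 η).symm
  have h2 : ∀ q, B (A q) = q := by
    rintro ⟨w, s⟩
    rw [hAa, hBa]
    have e1 : ContinuousLinearMap.adjoint e (G y.1 (e w) + s • y.2) = w := by
      rw [map_add, map_smul, d3, d4, smul_zero, add_zero]
    have e2 : ⟪vel G y, G y.1 (e w) + s • y.2⟫_ℝ = s := by
      rw [inner_add_right, inner_smul_right, ← hsymm, d6, he.ort, real_inner_comm, d5]
      ring
    rw [e1, e2]
  have h3 : ∀ u, A' (B' u) = u := by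
    intro u
    rw [hBa', hAa']
    exact (d1' u).symm
  have h4 : ∀ q, B' (A' q) = q := by
    rintro ⟨w, s⟩
    rw [hAa', hBa']
    have e1 : ContinuousLinearMap.adjoint e' (G y'.1 (e' w + s • vel G y')) = w := by
      rw [map_add, map_smul, d6', map_add, map_smul, d3', d4', smul_zero, add_zero]
    have e2 : ⟪y'.2, e' w + s • vel G y'⟫_ℝ = s := by
      rw [inner_add_right, inner_smul_right, he'.ort, d5']
      ring
    rw [e1, e2]
  have hCM : 0 ≤ C * M1 := by positivity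
  have hCC : 0 ≤ C * C := by positivity
  have n1 : ‖A‖ ≤ M2 := by
    refine ContinuousLinearMap.opNorm_le_bound _ (by linarith) ?_
    rintro ⟨w, s⟩
    rw [hAa]
    have f1 : ‖w‖ ≤ ‖(w, s)‖ := norm_fst_le (w, s)
    have f2 : ‖s‖ ≤ ‖(w, s)‖ := norm_snd_le (w, s)
    have f3 : ‖G y.1 (e w)‖ ≤ C * M1 * ‖(w, s)‖ := by
      calc ‖G y.1 (e w)‖ ≤ ‖G y.1‖ * ‖e w‖ := (G y.1).le_opNorm _
        _ ≤ C * (M1 * ‖(w, s)‖) := by
            refine mul_le_mul b2 ?_ (norm_nonneg _) (by linarith)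
            exact (e.le_opNorm w).trans (mul_le_mul hen f1 (norm_nonneg _) (by linarith))
        _ = C * M1 * ‖(w, s)‖ := by ring
    have f4 : ‖s • y.2‖ ≤ C * ‖(w, s)‖ := by
      rw [norm_smul, mul_comm]
      exact mul_le_mul b1 f2 (norm_nonneg _) (by linarith)
    refine (norm_add_le _ _).trans ((add_le_add f3 f4).trans ?_)
    rw [← add_mul]
    exact mul_le_mul_of_nonneg_right (by rw [hM2]; linarith) (norm_nonneg _)
  have n2 : ‖A'‖ ≤ M2 := by
    refine ContinuousLinearMap.opNorm_le_bound _ (by linarith) ?_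
    rintro ⟨w, s⟩
    rw [hAa']
    have f1 : ‖w‖ ≤ ‖(w, s)‖ := norm_fst_le (w, s)
    have f2 : ‖s‖ ≤ ‖(w, s)‖ := norm_snd_le (w, s)
    have f3 : ‖e' w‖ ≤ M1 * ‖(w, s)‖ :=
      (e'.le_opNorm w).trans (mul_le_mul hen' f1 (norm_nonneg _) (by linarith))
    have f4 : ‖s • vel G y'‖ ≤ C * C * ‖(w, s)‖ := by
      rw [norm_smul, mul_comm]
      exact mul_le_mul hvel' f2 (norm_nonneg _) hCC
    refine (norm_add_le _ _).trans ((add_le_add f3 f4).trans ?_)
    rw [← add_mul]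
    exact mul_le_mul_of_nonneg_right (by rw [hM2]; linarith) (norm_nonneg _)
  have n3 : ‖B‖ ≤ M2 := by
    refine ContinuousLinearMap.opNorm_le_bound _ (by linarith) ?_
    intro η
    rw [hBa]
    refine norm_prod_le_iff.2 ⟨?_, ?_⟩
    · refine ((ContinuousLinearMap.adjoint e).le_opNorm η).trans
        (mul_le_mul_of_nonneg_right ?_ (norm_nonneg _))
      rw [LinearIsometryEquiv.norm_map, hM2]
      linarith
    · refine (norm_inner_le_norm _ _).trans (mul_le_mul_of_nonneg_right ?_ (norm_nonneg _))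
      rw [hM2]
      linarith
  have n4 : ‖B'‖ ≤ M2 := by
    refine ContinuousLinearMap.opNorm_le_bound _ (by linarith) ?_
    intro u
    rw [hBa']
    refine norm_prod_le_iff.2 ⟨?_, ?_⟩
    · calc ‖ContinuousLinearMap.adjoint e' (G y'.1 u)‖ ≤ M1 * (C * ‖u‖) := by
            refine ((ContinuousLinearMap.adjoint e').le_opNorm _).trans ?_
            rw [LinearIsometryEquiv.norm_map]
            refine mul_le_mul hen' ?_ (norm_nonneg _) (by linarith)
            exact ((G y'.1).le_opNorm u).trans (mul_le_mul_of_nonneg_right b2' (norm_nonneg _))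
        _ = (C * M1) * ‖u‖ := by ring
        _ ≤ M2 * ‖u‖ := mul_le_mul_of_nonneg_right (by rw [hM2]; linarith) (norm_nonneg _)
    · refine (norm_inner_le_norm _ _).trans (mul_le_mul_of_nonneg_right ?_ (norm_nonneg _))
      rw [hM2]
      linarith
  -- the block
  have hE : ∀ η, Bx Φ γ t y η = (fderiv ℝ (MM Φ γ) (t, y) (0, (0, η))).1 := fun η => rfl
  have hi : ∀ w : W m, Bx Φ γ t y (G y.1 (e w)) = e' (Bk T w) := by
    intro w
    rw [hE]
    have g1 := k3 w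
    obtain ⟨_, _, g2⟩ := k1 (0, w)
    set u := fderiv ℝ (MM Φ γ) (t, y) (0, fderiv ℝ κ 0 (0, w)) with hu
    have g3 : ⟪y'.2, u.1⟫_ℝ = 0 := by
      have g4 := hG.al γ t y (fderiv ℝ κ 0 (0, w)) g2
      rw [hyy', g1] at g4
      rw [hu, g1, g4]
      exact inner_zero_right _
    have g5 := d1' u.1
    rw [g3, zero_smul, add_zero] at g5
    have g6 : Bk T w = ContinuousLinearMap.adjoint e' (G y'.1 u.1) := by
      have g7 : Bk T w = (T (0, w)).1 := rfl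
      rw [g7, hT (0, w)]
      rfl
    rw [g6, ← g5, hu, g1]
  have hii : Bx Φ γ t y y.2 = t • vel G y' := by
    rw [hE]
    exact DBX_scl G Φ γ t y y' (hG.dif γ) (hG.mx γ t y) hScl hyy'
  have hfin : ∀ (w : W m) (s : ℝ), Bx Φ γ t y (A (w, s)) = A' (Bk T w, t * s) := by
    intro w s
    rw [hAa, hAa', map_add, map_smul, hi, hii, smul_smul, mul_comm s t]
  have key := (hdba (Bk T) t (Bx Φ γ t y) A A' B B' h1 h2 h3 h4 n1 n2 n3 n4 hfin).1
  have ht0 : (1 : ℝ) / 2 ≤ |t| := ht.trans (le_abs_self t)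
  have hdB : dB T = |(Bk T).det| := rfl
  rw [hdB]
  have hnn : 0 ≤ |(Bk T).det| := abs_nonneg _
  nlinarith

end

end Pool.Agent.VD
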