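import Pool.Agent.helper80.VD.SpecF

set_option autoImplicit false

open scoped ContDiff Topology InnerProductSpace
open MeasureTheory Filter Set

namespace Pool.Agent.VD

noncomputable section

/-- `c` is in `S` and solves the equation at `t`. -/
def FGE_Sol {F : Type} [NormedAddCommGroup F] [NormedSpace ℝ F] (f : F → F) (S : Set F)
    (c : ℝ → F) (t : ℝ) : Prop := HasDerivAt c (f (c t)) t ∧ c t ∈ S

lemma FGE_congr {F : Type} [NormedAddCommGroup F] [NormedSpace ℝ F] {f : F → F} {S : Set F}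
    {c c' : ℝ → F} {t : ℝ} (h : c =ᶠ[𝓝 t] c') (hc : FGE_Sol f S c' t) : FGE_Sol f S c t := by
  have h0 : c t = c' t := h.self_of_nhds
  refine ⟨?_, by rw [h0]; exact hc.2⟩
  rw [h0]
  exact hc.1.congr_of_eventuallyEq h

lemma FGE_glue {F : Type} [NormedAddCommGroup F] [NormedSpace ℝ F] (f : F → F) (S : Set F)
    (c1 c2 : ℝ → F) (a : ℝ) (h : c1 a = c2 a) (t : ℝ) (h1 : t ≤ a → FGE_Sol f S c1 t)
    (h2 : a ≤ t → FGE_Sol f S c2 t) :
    FGE_Sol f S (fun t => if t ≤ a then c1 t else c2 t) t := by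
  rcases lt_trichotomy t a with ht | ht | ht
  · refine FGE_congr ?_ (h1 ht.le)
    filter_upwards [Iio_mem_nhds ht] with u hu
    rw [if_pos (le_of_lt hu)]
  · subst ht
    have e1 := h1 le_rfl
    have e2 := h2 le_rfl
    refine ⟨?_, by simpa using e1.2⟩
    have hval : (fun u => if u ≤ t then c1 u else c2 u) t = c1 t := by simp
    rw [hval]
    have hl : HasDerivWithinAt (fun u => if u ≤ t then c1 u else c2 u) (f (c1 t)) (Iic t) t := by
      refine e1.1.hasDerivWithinAt.congr ?_ (by simp)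
      intro u hu
      simp only [if_pos (mem_Iic.1 hu)]
    have hr : HasDerivWithinAt (fun u => if u ≤ t then c1 u else c2 u) (f (c1 t)) (Ici t) t := by
      have e3 : HasDerivWithinAt c2 (f (c1 t)) (Ici t) t := by
        rw [h]; exact e2.1.hasDerivWithinAt
      refine e3.congr ?_ (by simp [h])
      intro u hu
      rcases eq_or_lt_of_le (mem_Ici.1 hu) with h3 | h3
      · rw [← h3]; simp [h]
      · simp only [if_neg (not_le.2 h3)]
    have := hl.union hr
    rw [Iic_union_Ici] at this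
    exact hasDerivWithinAt_univ.1 this
  · refine FGE_congr ?_ (h2 ht.le)
    filter_upwards [Ioi_mem_nhds ht] with u hu
    rw [if_neg (not_le.2 hu)]

lemma FGE_shift {F : Type} [NormedAddCommGroup F] [NormedSpace ℝ F] (f : F → F) (S : Set F)
    (c : ℝ → F) (a t : ℝ) (h : FGE_Sol f S c (t - a)) : FGE_Sol f S (fun u => c (u - a)) t :=
  ⟨h.1.comp_sub_const t a, h.2⟩

/-- One step of the extension. -/
def FGE_step {F : Type} (b : F → ℝ → F) (T : ℝ) (c : ℝ → F) : ℝ → F :=
  fun t => if t ≤ -T then b (c (-T)) (t - -T) else (if t ≤ T then c t else b (c T) (t - T))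

lemma FGE_step_sol {F : Type} [NormedAddCommGroup F] [NormedSpace ℝ F] (f : F → F) (S : Set F)
    (τ : ℝ) (b : F → ℝ → F) (hb0 : ∀ x ∈ S, b x 0 = x)
    (hb : ∀ x ∈ S, ∀ t, |t| < τ → FGE_Sol f S (b x) t) (T h : ℝ) (hT : 0 < T) (hh : 0 < h)
    (c : ℝ → F) (hc : ∀ t, |t| < T + h → FGE_Sol f S c t) :
    (∀ t, |t| < T + τ → FGE_Sol f S (FGE_step b T c) t) ∧ ∀ t, |t| ≤ T → FGE_step b T c t = c t := by
  have hTS : c T ∈ S := (hc T (by rw [abs_of_pos hT]; linarith)).2
  have hTS' : c (-T) ∈ S := (hc (-T) (by rw [abs_neg, abs_of_pos hT]; linarith)).2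
  constructor
  · intro t ht
    have ht1 := abs_lt.1 ht
    refine FGE_glue f S (fun t => b (c (-T)) (t - -T))
      (fun t => if t ≤ T then c t else b (c T) (t - T)) (-T) ?_ t ?_ ?_
    · simp only [sub_self]
      rw [hb0 _ hTS', if_pos (by linarith)]
    · intro h1
      exact FGE_shift f S (b (c (-T))) (-T) t (hb _ hTS' _ (by rw [abs_lt]; constructor <;> linarith))
    · intro h1
      refine FGE_glue f S c (fun t => b (c T) (t - T)) T ?_ t ?_ ?_
      · simp only [sub_self]
        rw [hb0 _ hTS]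
      · intro h2
        exact hc t (by rw [abs_lt]; constructor <;> linarith)
      · intro h2
        exact FGE_shift f S (b (c T)) T t (hb _ hTS _ (by rw [abs_lt]; constructor <;> linarith))
  · intro t ht
    have ht1 := abs_le.1 ht
    unfold FGE_step
    split_ifs with h1 h2
    · have : t = -T := le_antisymm h1 ht1.1
      rw [this, sub_self, hb0 _ hTS']
    · rfl
    · exact absurd ht1.2 h2

/-- The sequence of the curves. -/
def FGE_seq {F : Type} (b : F → ℝ → F) (h : ℝ) (x : F) : ℕ → ℝ → F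
  | 0 => b x
  | n + 1 => FGE_step b ((n + 1 : ℕ) * h) (FGE_seq b h x n)

theorem FGE_proof : FGE_stmt := by
  intro F _ _ f S τ hτ hloc x hx
  classical
  set b : F → ℝ → F := fun y => if hy : y ∈ S then (hloc y hy).choose else fun _ => y with hbdef
  have hb0 : ∀ y ∈ S, b y 0 = y := by
    intro y hy
    have : b y = (hloc y hy).choose := by rw [hbdef]; exact dif_pos hy
    rw [this]
    exact (hloc y hy).choose_spec.1
  have hb : ∀ y ∈ S, ∀ t, |t| < τ → FGE_Sol f S (b y) t := by
    intro y hy t ht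
    have : b y = (hloc y hy).choose := by rw [hbdef]; exact dif_pos hy
    rw [this]
    exact (hloc y hy).choose_spec.2 t ht
  set h := τ / 2 with hh
  have hhp : 0 < h := by rw [hh]; linarith
  set C := FGE_seq b h x with hC
  have hsol : ∀ n : ℕ, ∀ t, |t| < (n + 1 : ℕ) * h + h → FGE_Sol f S (C n) t := by
    intro n
    induction n with
    | zero =>
      intro t ht
      refine hb x hx t ?_
      rw [hh] at ht
      push_cast at ht
      linarith
    | succ n ih =>
      have hT : (0 : ℝ) < (n + 1 : ℕ) * h := by positivity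
      have := (FGE_step_sol f S τ b hb0 hb ((n + 1 : ℕ) * h) h hT hhp (C n) ih).1
      intro t ht
      refine this t (lt_of_lt_of_eq ht ?_)
      rw [hh]; push_cast; ring
  have hext : ∀ n : ℕ, ∀ t, |t| ≤ (n + 1 : ℕ) * h → C (n + 1) t = C n t := by
    intro n
    have hT : (0 : ℝ) < (n + 1 : ℕ) * h := by positivity
    exact (FGE_step_sol f S τ b hb0 hb ((n + 1 : ℕ) * h) h hT hhp (C n) (hsol n)).2
  have hext2 : ∀ n m : ℕ, n ≤ m → ∀ t, |t| ≤ (n + 1 : ℕ) * h → C m t = C n t := by
    intro n m hnm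
    induction m, hnm using Nat.le_induction with
    | base => intro t _; rfl
    | succ m hm ih =>
      intro t ht
      rw [hext m t, ih t ht]
      refine ht.trans (mul_le_mul_of_nonneg_right ?_ hhp.le)
      exact_mod_cast Nat.succ_le_succ hm
  have hfl : ∀ t : ℝ, |t| < ((⌊|t| / h⌋₊ : ℕ) + 1 : ℕ) * h := by
    intro t
    have := Nat.lt_floor_add_one (|t| / h)
    rw [div_lt_iff₀ hhp] at this
    push_cast
    exact this
  refine ⟨fun t => C ⌊|t| / h⌋₊ t, ?_, ?_⟩
  · have h0 : ⌊|(0 : ℝ)| / h⌋₊ = 0 := by simp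
    simp only [h0]
    exact hb0 x hx
  · intro t0
    change FGE_Sol f S (fun t => C ⌊|t| / h⌋₊ t) t0
    refine FGE_congr ?_ (hsol ⌊|t0| / h⌋₊ t0 ((hfl t0).trans (by linarith)))
    have hop : IsOpen {t : ℝ | |t| < ((⌊|t0| / h⌋₊ : ℕ) + 1 : ℕ) * h} :=
      isOpen_lt continuous_abs continuous_const
    filter_upwards [hop.mem_nhds (hfl t0)] with t ht
    have hle : ⌊|t| / h⌋₊ ≤ ⌊|t0| / h⌋₊ := by
      have h1 : |t| / h < ((⌊|t0| / h⌋₊ : ℕ) + 1 : ℕ) := by
        rw [div_lt_iff₀ hhp]; exact ht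
      have h2 := (Nat.floor_lt (by positivity)).2 h1
      omega
    exact (hext2 _ _ hle t (hfl t).le).symm

end

end Pool.Agent.VD
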