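import Pool.Agent.helper80.VD.SpecD

set_option autoImplicit false

open scoped ContDiff Topology InnerProductSpace
open MeasureTheory Filter Set

namespace Pool.Agent.VD

noncomputable section

lemma GJT_left {E F G : Type} [NormedAddCommGroup E] [NormedSpace ℝ E] [NormedAddCommGroup F]
    [NormedSpace ℝ F] [NormedAddCommGroup G] [NormedSpace ℝ G] (L : F →L[ℝ] G) (hL : ‖L‖ ≤ 1)
    {f : E → F} (hf : ContDiff ℝ ∞ f) (x : E) (n : ℕ) :
    ‖iteratedFDeriv ℝ n (fun y => L (f y)) x‖ ≤ ‖iteratedFDeriv ℝ n f x‖ := by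
  have h := L.norm_iteratedFDeriv_comp_left (n := n) (x := x) hf.contDiffAt (by exact_mod_cast le_top)
  refine h.trans ?_
  calc ‖L‖ * ‖iteratedFDeriv ℝ n f x‖ ≤ 1 * ‖iteratedFDeriv ℝ n f x‖ :=
        mul_le_mul_of_nonneg_right hL (norm_nonneg _)
    _ = ‖iteratedFDeriv ℝ n f x‖ := one_mul _

lemma GJT_right {E F G : Type} [NormedAddCommGroup E] [NormedSpace ℝ E] [NormedAddCommGroup F]
    [NormedSpace ℝ F] [NormedAddCommGroup G] [NormedSpace ℝ G] (g : G →L[ℝ] E) (hg : ‖g‖ ≤ 1)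
    {f : E → F} (hf : ContDiff ℝ ∞ f) (x : G) (n : ℕ) :
    ‖iteratedFDeriv ℝ n (fun y => f (g y)) x‖ ≤ ‖iteratedFDeriv ℝ n f (g x)‖ := by
  have h := g.iteratedFDeriv_comp_right (i := n) hf x (by exact_mod_cast le_top)
  have h2 : (fun y => f (g y)) = f ∘ g := rfl
  rw [h2, h]
  refine (ContinuousMultilinearMap.norm_compContinuousLinearMap_le _ _).trans ?_
  have h3 : ∏ _i : Fin n, ‖g‖ ≤ 1 := by
    rw [Finset.prod_const]
    exact pow_le_one₀ (norm_nonneg _) hg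
  calc ‖iteratedFDeriv ℝ n f (g x)‖ * ∏ _i : Fin n, ‖g‖ ≤ ‖iteratedFDeriv ℝ n f (g x)‖ * 1 :=
        mul_le_mul_of_nonneg_left h3 (norm_nonneg _)
    _ = ‖iteratedFDeriv ℝ n f (g x)‖ := mul_one _

lemma GJT_clm {E F : Type} [NormedAddCommGroup E] [NormedSpace ℝ E] [NormedAddCommGroup F]
    [NormedSpace ℝ F] (g : E →L[ℝ] F) (hg : ‖g‖ ≤ 1) (x : E) (n : ℕ) :
    ‖iteratedFDeriv ℝ n (fun y => g y) x‖ ≤ max ‖g x‖ 1 := by
  rcases n with _ | n
  · rw [norm_iteratedFDeriv_zero]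
    exact le_max_left _ _
  · rw [← norm_iteratedFDeriv_fderiv]
    have h1 : fderiv ℝ (fun y => g y) = fun _ => g := by
      funext y
      exact g.fderiv
    rw [h1]
    rcases n with _ | n
    · rw [norm_iteratedFDeriv_zero]
      exact hg.trans (le_max_right _ _)
    · rw [iteratedFDeriv_succ_const]
      simp

/-- The field on `P d × ℝ`. -/
def GJT_f {d : ℕ} (X : P d → P d) (z : P d × ℝ) : P d × ℝ := (z.2 • X z.1, 0)

/-- The flow on `P d × ℝ`. -/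
def GJT_Φ {d : ℕ} (Φ : ℝ → P d → P d) (r : ℝ) (z : P d × ℝ) : P d × ℝ := (Φ (r * z.2) z.1, z.2)

lemma GJT_f_smooth {d : ℕ} (X : P d → P d) (hX : ContDiff ℝ ∞ X) : ContDiff ℝ ∞ (GJT_f X) := by
  unfold GJT_f
  exact (contDiff_snd.smul (hX.comp contDiff_fst)).prodMk contDiff_const

lemma GJT_Φ_smooth {d : ℕ} (Φ : ℝ → P d → P d) (h : ContDiff ℝ ∞ fun q : ℝ × P d => Φ q.1 q.2) :
    ContDiff ℝ ∞ (fun q : ℝ × (P d × ℝ) => GJT_Φ Φ q.1 q.2) := by
  unfold GJT_Φ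
  have h1 : ContDiff ℝ ∞ (fun q : ℝ × (P d × ℝ) => (q.1 * q.2.2, q.2.1)) :=
    (contDiff_fst.mul (contDiff_snd.comp contDiff_snd)).prodMk (contDiff_fst.comp contDiff_snd)
  exact (h.comp h1).prodMk (contDiff_snd.comp contDiff_snd)

lemma GJT_f_bound {d : ℕ} (X : P d → P d) (hX : ContDiff ℝ ∞ X) (n m : ℕ) (hm : m ≤ n) (M R : ℝ)
    (z : P d × ℝ) (hR : max |z.2| 1 ≤ R)
    (hM : ∀ i ≤ n, ‖iteratedFDeriv ℝ i X z.1‖ ≤ M) :
    ‖iteratedFDeriv ℝ m (GJT_f X) z‖ ≤ 2 ^ n * (R * M) := by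
  have hR0 : 0 ≤ R := le_trans (by positivity) hR
  have hM0 : 0 ≤ M := (norm_nonneg _).trans (hM 0 (Nat.zero_le _))
  have hs1 : ContDiff ℝ ∞ (fun z : P d × ℝ => z.2) := contDiff_snd
  have hs2 : ContDiff ℝ ∞ (fun z : P d × ℝ => X z.1) := hX.comp contDiff_fst
  have h1 : GJT_f X = fun z : P d × ℝ => (ContinuousLinearMap.inl ℝ (P d) ℝ) (z.2 • X z.1) := by
    funext z
    simp [GJT_f]
  have hinl : ‖ContinuousLinearMap.inl ℝ (P d) ℝ‖ ≤ 1 := by
    refine ContinuousLinearMap.opNorm_le_bound _ zero_le_one (fun x => ?_)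
    simp
  rw [h1]
  refine (GJT_left _ hinl (hs1.smul hs2) z m).trans ?_
  refine (norm_iteratedFDeriv_smul_le (N := ∞) hs1 hs2 z (by exact_mod_cast le_top)).trans ?_
  have hfst : ‖ContinuousLinearMap.fst ℝ (P d) ℝ‖ ≤ 1 := ContinuousLinearMap.norm_fst_le ℝ (P d) ℝ
  have hsnd : ‖ContinuousLinearMap.snd ℝ (P d) ℝ‖ ≤ 1 := ContinuousLinearMap.norm_snd_le ℝ (P d) ℝ
  have hterm : ∀ i ∈ Finset.range (m + 1), (m.choose i : ℝ) *
      ‖iteratedFDeriv ℝ i (fun z : P d × ℝ => z.2) z‖ *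
      ‖iteratedFDeriv ℝ (m - i) (fun z : P d × ℝ => X z.1) z‖ ≤ (m.choose i : ℝ) * (R * M) := by
    intro i _
    have e1 : ‖iteratedFDeriv ℝ i (fun z : P d × ℝ => z.2) z‖ ≤ R :=
      (GJT_clm (ContinuousLinearMap.snd ℝ (P d) ℝ) hsnd z i).trans hR
    have e2 : ‖iteratedFDeriv ℝ (m - i) (fun z : P d × ℝ => X z.1) z‖ ≤ M :=
      (GJT_right (ContinuousLinearMap.fst ℝ (P d) ℝ) hfst hX z (m - i)).trans
        (hM (m - i) ((Nat.sub_le _ _).trans hm))
    rw [mul_assoc]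
    exact mul_le_mul_of_nonneg_left (mul_le_mul e1 e2 (norm_nonneg _) hR0) (Nat.cast_nonneg _)
  refine (Finset.sum_le_sum hterm).trans ?_
  rw [← Finset.sum_mul]
  have h2 : ∑ i ∈ Finset.range (m + 1), (m.choose i : ℝ) = 2 ^ m := by
    have := Nat.sum_range_choose m
    exact_mod_cast this
  rw [h2]
  exact mul_le_mul_of_nonneg_right (pow_le_pow_right₀ (by norm_num) hm) (mul_nonneg hR0 hM0)

theorem GJT_proof (hFDB : FDB_stmt) (hGCF : GCF_stmt) (hGUX : GUX_stmt) (hGUN : GUN_stmt)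
    (hGXH : GXH_stmt) (hFC1 : FC1_stmt) : GJT_stmt := by
  intro d Γ _ _ K k B hK m n T
  obtain ⟨m', hmm, hconf⟩ := hGCF d Γ K k B hK m T
  choose Cx hCx using fun i => hGUX d B m' i m'
  set M : ℝ := ∑ i ∈ Finset.range (n + 1), |Cx i| with hM
  set R : ℝ := max |T| 1 with hR
  obtain ⟨C1, hC1⟩ := hFDB (P d × ℝ) n 1 (2 ^ n * (R * M))
  refine ⟨max C1 m', ?_⟩
  intro G Φ hG hΦ p t hp hnp ht j hj
  have hX : ContDiff ℝ ∞ (XH G) := (hGXH d G hG.met).2.1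
  rcases Nat.eq_zero_or_pos j with hj0 | hjpos
  · subst hj0
    rw [norm_iteratedFDeriv_zero]
    obtain ⟨h1, h2⟩ := hconf G Φ hG hΦ p t hp hnp ht
    exact (norm_prod_le_iff.2 ⟨h1, h2⟩).trans (le_max_right _ _)
  · have hflow := (hFC1 (P d × ℝ) (GJT_f (XH G)) (GJT_Φ Φ) (GJT_f_smooth _ hX)
      (GJT_Φ_smooth _ hΦ.smooth) ?_ ?_ ?_).1
    · have hbd : ∀ r, |r| ≤ 1 → ∀ i ≤ n,
          ‖iteratedFDeriv ℝ i (GJT_f (XH G)) (GJT_Φ Φ r (p, t))‖ ≤ 2 ^ n * (R * M) := by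
        intro r hr i hi
        refine GJT_f_bound (XH G) hX n i hi M R _ ?_ ?_
        · change max |t| 1 ≤ R
          rw [hR]
          exact max_le_max (ht.trans (le_abs_self T)) le_rfl
        · intro l hl
          change ‖iteratedFDeriv ℝ l (XH G) (Φ (r * t) p)‖ ≤ M
          have hrt : |r * t| ≤ T := by
            rw [abs_mul]
            calc |r| * |t| ≤ 1 * |t| := mul_le_mul_of_nonneg_right hr (abs_nonneg _)
              _ = |t| := one_mul _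
              _ ≤ T := ht
          obtain ⟨h1, h2⟩ := hconf G Φ hG hΦ p (r * t) hp hnp hrt
          refine (hCx l G hG.met hG.lo hG.bd _ h1 h2).trans ((le_abs_self _).trans ?_)
          rw [hM]
          exact Finset.single_le_sum (f := fun i => |Cx i|) (fun i _ => abs_nonneg _)
            (Finset.mem_range.2 (by omega))
      have h1 := hC1 (GJT_f (XH G)) (GJT_Φ Φ) (p, t) (GJT_f_smooth _ hX) hflow
        (GJT_Φ_smooth _ hΦ.smooth) hbd 1 (by norm_num) j hjpos hj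
      refine le_trans ?_ (h1.trans (le_max_left _ _))
      set S : ℝ × P d →L[ℝ] P d × ℝ :=
        (ContinuousLinearMap.snd ℝ ℝ (P d)).prod (ContinuousLinearMap.fst ℝ ℝ (P d)) with hS
      have hSn : ‖S‖ ≤ 1 := by
        refine ContinuousLinearMap.opNorm_le_bound _ zero_le_one (fun x => ?_)
        rw [one_mul]
        refine norm_prod_le_iff.2 ⟨?_, ?_⟩
        · exact norm_snd_le x
        · exact norm_fst_le x
      have hfst : ‖ContinuousLinearMap.fst ℝ (P d) ℝ‖ ≤ 1 :=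
        ContinuousLinearMap.norm_fst_le ℝ (P d) ℝ
      have hsm1 : ContDiff ℝ ∞ (GJT_Φ Φ 1) :=
        (GJT_Φ_smooth _ hΦ.smooth).comp (contDiff_const.prodMk contDiff_id)
      have heq : (fun q : ℝ × P d => Φ q.1 q.2) =
          fun q : ℝ × P d => (fun z => (ContinuousLinearMap.fst ℝ (P d) ℝ) (GJT_Φ Φ 1 z)) (S q) := by
        funext q
        simp [GJT_Φ, hS]
      rw [heq]
      have hsm2 : ContDiff ℝ ∞ (fun z => (ContinuousLinearMap.fst ℝ (P d) ℝ) (GJT_Φ Φ 1 z)) :=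
        (ContinuousLinearMap.fst ℝ (P d) ℝ).contDiff.comp hsm1
      refine (GJT_right S hSn hsm2 (t, p) j).trans ?_
      exact GJT_left _ hfst hsm1 (S (t, p)) j
    · intro z
      simp only [GJT_Φ, zero_mul, hΦ.zero]
    · intro s u z
      simp only [GJT_Φ]
      rw [add_mul, hΦ.add]
    · intro r z
      have h1 : HasDerivAt (fun s : ℝ => s * z.2) z.2 r := by
        simpa using (hasDerivAt_id r).mul_const z.2
      have h2 := (hΦ.deriv (r * z.2) z.1).scomp r h1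
      exact h2.prodMk (hasDerivAt_const r z.2)

end

end Pool.Agent.VD
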